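import Pool.Agent.W688.VO.Fin

/-!
# Project VO (helper345): products exist, linearity of locality
-/

set_option autoImplicit false

namespace Pool.Agent.W688.VO

open Pool.Agent.W345.VO

section

variable {V : Type} [AddCommGroup V] [Module ℂ V]

theorem trm_add (a b : ℤ → Module.End ℂ V) (r p q : ℤ) (v w : V) (i : ℕ) :
    trm a b r p q (v + w) i = trm a b r p q v i + trm a b r p q w i := by
  unfold trm
  simp only [map_add, smul_add, smul_sub]
  abel

theorem trm_smul (a b : ℤ → Module.End ℂ V) (r p q : ℤ) (k : ℂ) (v : V) (i : ℕ) :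
    trm a b r p q (k • v) i = k • trm a b r p q v i := by
  unfold trm
  simp only [map_smul]
  module

theorem trm_add_left (a a' b : ℤ → Module.End ℂ V) (r p q : ℤ) (v : V) (i : ℕ) :
    trm (a + a') b r p q v i = trm a b r p q v i + trm a' b r p q v i := by
  unfold trm
  simp only [Pi.add_apply, LinearMap.add_apply, map_add]
  module

theorem trm_smul_left (k : ℂ) (a b : ℤ → Module.End ℂ V) (r p q : ℤ) (v : V) (i : ℕ) :
    trm (k • a) b r p q v i = k • trm a b r p q v i := by
  unfold trm
  simp only [Pi.smul_apply, LinearMap.smul_apply, map_smul]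
  module

theorem RR_add (hF : S_FIN) {a b : ℤ → Module.End ℂ V} (ha : a ∈ FL V) (hb : b ∈ FL V)
    (r p q : ℤ) (v w : V) : RR a b r p q (v + w) = RR a b r p q v + RR a b r p q w := by
  unfold RR
  rw [← finsum_add_distrib (hF V a b ha hb r p q v) (hF V a b ha hb r p q w)]
  exact finsum_congr fun i => trm_add a b r p q v w i

theorem RR_smul (a b : ℤ → Module.End ℂ V) (r p q : ℤ) (k : ℂ) (v : V) :
    RR a b r p q (k • v) = k • RR a b r p q v := by
  unfold RR
  rw [smul_finsum]
  exact finsum_congr fun i => trm_smul a b r p q k v i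

theorem RR_add_left (hF : S_FIN) {a a' b : ℤ → Module.End ℂ V} (ha : a ∈ FL V) (ha' : a' ∈ FL V)
    (hb : b ∈ FL V) (r p q : ℤ) (v : V) :
    RR (a + a') b r p q v = RR a b r p q v + RR a' b r p q v := by
  unfold RR
  rw [← finsum_add_distrib (hF V a b ha hb r p q v) (hF V a' b ha' hb r p q v)]
  exact finsum_congr fun i => trm_add_left a a' b r p q v i

theorem RR_smul_left (k : ℂ) (a b : ℤ → Module.End ℂ V) (r p q : ℤ) (v : V) :
    RR (k • a) b r p q v = k • RR a b r p q v := by
  unfold RR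
  rw [smul_finsum]
  exact finsum_congr fun i => trm_smul_left k a b r p q v i

/-- locality with a larger number -/
theorem loc_mono {a b : ℤ → Module.End ℂ V} (ha : a ∈ FL V) (hb : b ∈ FL V) {N : ℕ}
    (h : ∀ (p q : ℤ) (v : V), RR a b (N : ℤ) p q v = 0) (M : ℕ) :
    ∀ (p q : ℤ) (v : V), RR a b ((N + M : ℕ) : ℤ) p q v = 0 := by
  induction M with
  | zero => exact h
  | succ M ih =>
    intro p q v
    have h1 := pas V a b ha hb ((N + M : ℕ) : ℤ) p q v
    rw [ih, ih, sub_zero] at h1
    have e : ((N + (M + 1) : ℕ) : ℤ) = ((N + M : ℕ) : ℤ) + 1 := by push_cast; ring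
    rw [e]
    exact h1.symm

end

theorem prd : S_FIN → S_PRD := by
  intro hF V _ _ a b ha hb n
  refine ⟨fun m =>
    { toFun := fun v => RR a b n 0 m v
      map_add' := fun v w => RR_add hF ha hb n 0 m v w
      map_smul' := fun k v => RR_smul a b n 0 m k v }, ?_, fun m v => rfl⟩
  intro v
  obtain ⟨N1, hN1⟩ := ha v
  obtain ⟨N0, hN0⟩ := hb v
  have h2 : ∀ i : ℕ, ∃ N : ℤ, ∀ j, N ≤ j → b j (a (0 + i) v) = 0 := fun i => hb (a (0 + i) v)
  choose f hf using h2
  obtain ⟨N2, hN2⟩ := Finset.exists_le ((Finset.range N1.toNat).image f)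
  refine ⟨max N0 (N2 - n + N1.toNat), fun m hm => ?_⟩
  show RR a b n 0 m v = 0
  unfold RR
  rw [finsum_eq_zero_of_forall_eq_zero]
  intro i
  unfold trm
  have h3 : b (m + i) v = 0 := hN0 _ (by
    have := le_max_left N0 (N2 - n + N1.toNat)
    omega)
  have h4 : b (m + n - i) (a (0 + i) v) = 0 := by
    rcases lt_or_ge i N1.toNat with h | h
    · apply hf i
      have h5 := hN2 (f i) (Finset.mem_image_of_mem f (Finset.mem_range.2 h))
      have h6 := le_max_right N0 (N2 - n + N1.toNat)
      omega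
    · rw [hN1 (0 + i) (by omega), map_zero]
  rw [h3, h4, map_zero, smul_zero, sub_zero, smul_zero]

theorem lad : S_FIN → S_LAD := by
  intro hF V _ _
  refine ⟨?_, ?_, ?_, ?_⟩
  · rintro a b c ha hb hc ⟨N, hN⟩ ⟨N', hN'⟩
    refine ⟨N + N', fun p q v => ?_⟩
    have h1 := loc_mono ha hc hN N' p q v
    have h2 := loc_mono hb hc hN' N p q v
    rw [add_comm N' N] at h2
    rw [RR_add_left hF ha hb hc, h1, h2, add_zero]
  · rintro k a c - - ⟨N, hN⟩
    refine ⟨N, fun p q v => ?_⟩
    rw [RR_smul_left, hN, smul_zero]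
  · intro v
    refine ⟨0, fun n hn => ?_⟩
    unfold idf
    rw [if_neg (by omega)]
    rfl
  · intro c _
    refine ⟨0, fun p q v => ?_⟩
    unfold RR
    rw [finsum_eq_zero_of_forall_eq_zero]
    intro i
    rcases Nat.eq_zero_or_pos i with h | h
    · subst h
      unfold trm idf
      by_cases hp : p = -1
      · simp [hp]
      · simp [hp]
    · unfold trm bc
      obtain ⟨j, rfl⟩ := Nat.exists_eq_succ_of_ne_zero h.ne'
      have h1 : Ring.choose (((0 : ℕ) : ℕ) : ℤ) (j + 1) = 0 := by
        rw [Nat.cast_zero]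
        exact Ring.choose_zero_succ ℤ j
      rw [h1]
      simp

end Pool.Agent.W688.VO
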